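import Pool.Agent.Helper8.Kak.DefsC
import Pool.Agent.Helper37.Kak.C2
import Pool.Agent.Helper96.Kak.C1
import Pool.Agent.Helper68.Kak.C3
import Pool.Agent.Helper21.Kak.C4
import Pool.Agent.Helper83.Kak.C5
import Pool.Agent.Helper52.Kak.C7c

/-! Module C8: non-equivalence (problem MP_013a6c_an). -/

open MeasureTheory Set Topology Filter
open scoped symmDiff ENNReal ProbabilityTheory

set_option linter.unusedSectionVars false

namespace KakC

/-! ### Combinatorial part -/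

theorem name_length {Y : Type*} (P : Y → ℕ) (T : Y → Y) (y : Y) (n : ℕ) :
    (name P T y n).length = n := by simp [name]

theorem name_take {Y : Type*} (P : Y → ℕ) (T : Y → Y) (y : Y) {n m : ℕ} (hnm : n ≤ m) :
    (name P T y m).take n = name P T y n := by
  unfold name
  rw [← List.map_take, List.take_range, min_eq_left hnm]

theorem same_word {X Y : Type*} {S : X → X} {T : Y → Y} {A' : Set X} {B' : Set Y} {φ : X → Y}
    {P : Y → ℕ} {w : ℕ → X → ℕ × ℕ} {v : ℕ → Y → ℕ × ℕ} {t s : ℕ → ℕ} {G' : ℕ × ℕ → List ℕ}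
    {m d K n n' : ℕ} (hK : ∀ ω, (G' ω).length ≤ K)
    (hn : n = h (m + d) * a (m + d) ^ N (m + d + 1)) (hsk : s (m + d) = M (m + d))
    (hKn : 4 * (2 * h (m + d) * K) < n)
    {z z' : X}
    (g1 : ∃ r, n ≤ r ∧ (List.range n').flatMap (fun s => Gw P T B' φ A' (S^[s] z)) =
      name P T (φ z) r)
    (g1' : ∃ r, n ≤ r ∧ (List.range n').flatMap (fun s => Gw P T B' φ A' (S^[s] z')) =
      name P T (φ z') r)
    (g3 : 16 * ∑ i ∈ Finset.range n', dd (Gw P T B' φ A' (S^[i] z)) (G' (w m (S^[i] z))) ≤ n)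
    (g3' : 16 * ∑ i ∈ Finset.range n', dd (Gw P T B' φ A' (S^[i] z')) (G' (w m (S^[i] z'))) ≤ n)
    (g4 : ∀ i < n', w m (S^[i] z) = projd t m d ((w (m + d) z).1, ((w (m + d) z).2 + i) % h (m + d)))
    (g4' : ∀ i < n', w m (S^[i] z') =
      projd t m d ((w (m + d) z').1, ((w (m + d) z').2 + i) % h (m + d)))
    (hw : (w (m + d) z).2 < h (m + d)) (hw' : (w (m + d) z').2 < h (m + d))
    (hij : (w (m + d) z).1 = (w (m + d) z').1)
    (hv : (v (m + d + 1) (φ z)).1 < N (m + d + 1)) (hv' : (v (m + d + 1) (φ z')).1 < N (m + d + 1))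
    (g6 : name P T (φ z) n =
      ((Wd s (m + d + 1) (v (m + d + 1) (φ z)).1).drop (v (m + d + 1) (φ z)).2).take n)
    (g6' : name P T (φ z') n =
      ((Wd s (m + d + 1) (v (m + d + 1) (φ z')).1).drop (v (m + d + 1) (φ z')).2).take n) :
    (v (m + d + 1) (φ z)).1 = (v (m + d + 1) (φ z')).1 := by
  by_contra hne
  obtain ⟨r, hr, hY⟩ := g1
  obtain ⟨r', hr', hY'⟩ := g1'
  have N1 := near_flatMap (fun i => Gw P T B' φ A' (S^[i] z)) (fun i => G' (w m (S^[i] z))) n'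
  have N2 := near_flatMap (fun i => Gw P T B' φ A' (S^[i] z')) (fun i => G' (w m (S^[i] z'))) n'
  set g : ℕ → List ℕ := fun r => G' (projd t m d ((w (m + d) z).1, r % h (m + d))) with hg
  have N3 : Near (2 * h (m + d) * K) ((List.range n').flatMap (fun i => G' (w m (S^[i] z))))
      ((List.range n').flatMap (fun i => G' (w m (S^[i] z')))) := by
    have := near_window (g := g) (K := K) (fun r => hK _) hw hw' n'
    have e1 : (List.range n').flatMap (fun i => G' (w m (S^[i] z))) =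
        (List.range n').flatMap (fun i => g ((w (m + d) z).2 + i)) := by
      apply List.flatMap_congr
      intro i hi
      rw [g4 i (List.mem_range.1 hi)]
    have e2 : (List.range n').flatMap (fun i => G' (w m (S^[i] z'))) =
        (List.range n').flatMap (fun i => g ((w (m + d) z').2 + i)) := by
      apply List.flatMap_congr
      intro i hi
      rw [g4' i (List.mem_range.1 hi), ← hij]
    rw [e1, e2]
    exact this
  have N4 := near_trans (near_trans N1 N3) (near_symm N2)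
  rw [hY, hY'] at N4
  have N5 := near_take N4 (n := n) (by rw [name_length]; exact hr) (by rw [name_length]; exact hr')
  rw [name_take _ _ _ hr, name_take _ _ _ hr'] at N5
  obtain ⟨c, hc1, hc2, hc3⟩ := N5
  rw [name_length, name_length] at hc3
  have hl1 : ((List.drop (v (m + d + 1) (φ z)).2 (Wd s (m + d + 1) (v (m + d + 1) (φ z)).1)).take
      n).length = n := by rw [← g6, name_length]
  have hl2 : ((List.drop (v (m + d + 1) (φ z')).2 (Wd s (m + d + 1) (v (m + d + 1) (φ z')).1)).take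
      n).length = n := by rw [← g6', name_length]
  have := sep_one s (m + d) hsk hv hv' hne (u := name P T (φ z) n) (v := name P T (φ z') n)
    (by rw [g6]; exact ((List.take_prefix _ _).isInfix).trans (List.drop_suffix _ _).isInfix)
    (by rw [g6']; exact ((List.take_prefix _ _).isInfix).trans (List.drop_suffix _ _).isInfix)
    (by rw [name_length, hn]) (by rw [name_length, hn]) hc1 hc2
  rw [name_length] at this
  omega

/-! ### Measure part -/

section
variable {Y : Type*} [MeasurableSpace Y] {s : ℕ → ℕ} {ν : Measure Y} [IsProbabilityMeasure ν]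
    {T : Y → Y} {v : ℕ → Y → ℕ × ℕ}

theorem tower_measure_finset (hT : Tower s ν T v) (k : ℕ) (F : Finset (ℕ × ℕ))
    (hF : ∀ ω ∈ F, ω ∈ Om k) : ν (v k ⁻¹' F) ≤ (F.card : ℝ≥0∞) * ((N k * h k : ℕ) : ℝ≥0∞)⁻¹ := by
  have : v k ⁻¹' F = ⋃ ω ∈ F, v k ⁻¹' {ω} := by ext y; simp
  rw [this]
  refine (measure_biUnion_finset_le _ _).trans ?_
  have : ∀ ω ∈ F, ν (v k ⁻¹' {ω}) = ((N k * h k : ℕ) : ℝ≥0∞)⁻¹ := by
    intro ω hω
    exact hT.law k ω.1 ω.2 (hF ω hω).1 (hF ω hω).2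
  rw [Finset.sum_congr rfl this, Finset.sum_const, nsmul_eq_mul]

theorem tower_lvl1 (hT : Tower s ν T v) (k : ℕ) (J : Finset ℕ) :
    ν {y | (v k y).1 ∈ J} ≤ (J.card : ℝ≥0∞) / (N k : ℝ≥0∞) := by
  classical
  set J' := J.filter (fun j => j < N k) with hJ'
  have hsub : {y | (v k y).1 ∈ J} ⊆ v k ⁻¹' (J' ×ˢ Finset.range (h k) : Finset (ℕ × ℕ)) := by
    intro y hy
    simp only [mem_preimage, Finset.coe_product, mem_prod, Finset.mem_coe, hJ', Finset.mem_filter,
      Finset.mem_range]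
    exact ⟨⟨hy, hT.lt1 k y⟩, hT.lt2 k y⟩
  refine (measure_mono hsub).trans ((tower_measure_finset hT k _ ?_).trans ?_)
  · intro ω hω
    simp only [Finset.mem_product, hJ', Finset.mem_filter, Finset.mem_range] at hω
    exact ⟨hω.1.2, hω.2⟩
  · rw [Finset.card_product, Finset.card_range]
    have h1 : (J'.card : ℝ≥0∞) ≤ J.card := by exact_mod_cast Finset.card_filter_le _ _
    have hN : (N k : ℝ≥0∞) ≠ 0 := by exact_mod_cast (N_pos k).ne'
    have hh : (h k : ℝ≥0∞) ≠ 0 := by exact_mod_cast (h_pos k).ne'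
    push_cast
    rw [ENNReal.mul_inv (Or.inl hN) (Or.inl (by simp)), ENNReal.div_eq_inv_mul]
    calc (J'.card : ℝ≥0∞) * h k * ((N k : ℝ≥0∞)⁻¹ * (h k : ℝ≥0∞)⁻¹)
        = (J'.card : ℝ≥0∞) * (N k : ℝ≥0∞)⁻¹ * (h k * (h k : ℝ≥0∞)⁻¹) := by ring
      _ = (J'.card : ℝ≥0∞) * (N k : ℝ≥0∞)⁻¹ := by
          rw [ENNReal.mul_inv_cancel hh (by simp), mul_one]
      _ ≤ (N k : ℝ≥0∞)⁻¹ * J.card := by rw [mul_comm]; gcongr

theorem tower_lvl2 (hT : Tower s ν T v) (k n : ℕ) :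
    ν {y | ¬ ((v k y).2 + n ≤ h k)} ≤ (n : ℝ≥0∞) / (h k : ℝ≥0∞) := by
  classical
  have hsub : {y | ¬ ((v k y).2 + n ≤ h k)} ⊆
      v k ⁻¹' (Finset.range (N k) ×ˢ (Finset.range (h k)).filter (fun l => h k < l + n) :
        Finset (ℕ × ℕ)) := by
    intro y hy
    simp only [mem_preimage, Finset.coe_product, mem_prod, Finset.mem_coe, Finset.mem_filter,
      Finset.mem_range]
    exact ⟨hT.lt1 k y, hT.lt2 k y, not_le.1 hy⟩
  refine (measure_mono hsub).trans ((tower_measure_finset hT k _ ?_).trans ?_)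
  · intro ω hω
    simp only [Finset.mem_product, Finset.mem_filter, Finset.mem_range] at hω
    exact ⟨hω.1, hω.2.1⟩
  · rw [Finset.card_product, Finset.card_range]
    have hc : ((Finset.range (h k)).filter (fun l => h k < l + n)).card ≤ n := by
      have : (Finset.range (h k)).filter (fun l => h k < l + n) ⊆ Finset.Ico (h k - n) (h k) := by
        intro l hl
        simp only [Finset.mem_filter, Finset.mem_range] at hl
        rw [Finset.mem_Ico]
        omega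
      refine (Finset.card_le_card this).trans ?_
      rw [Nat.card_Ico]
      omega
    have hN : (N k : ℝ≥0∞) ≠ 0 := by exact_mod_cast (N_pos k).ne'
    have hh : (h k : ℝ≥0∞) ≠ 0 := by exact_mod_cast (h_pos k).ne'
    push_cast
    rw [ENNReal.mul_inv (Or.inl hN) (Or.inl (by simp)), ENNReal.div_eq_inv_mul]
    calc (N k : ℝ≥0∞) * ((Finset.range (h k)).filter (fun l => h k < l + n)).card *
          ((N k : ℝ≥0∞)⁻¹ * (h k : ℝ≥0∞)⁻¹)
        = (N k * (N k : ℝ≥0∞)⁻¹) * ((h k : ℝ≥0∞)⁻¹ *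
          ((Finset.range (h k)).filter (fun l => h k < l + n)).card) := by ring
      _ = (h k : ℝ≥0∞)⁻¹ * ((Finset.range (h k)).filter (fun l => h k < l + n)).card := by
          rw [ENNReal.mul_inv_cancel hN (by simp), one_mul]
      _ ≤ (h k : ℝ≥0∞)⁻¹ * n := by gcongr

end

section Main

variable {X Y : Type*} [MeasurableSpace X] [MeasurableSpace Y]
    {μ : Measure X} [IsProbabilityMeasure μ] {ν : Measure Y} [IsProbabilityMeasure ν]

theorem ae_of_cond {A' : Set X} (hA : MeasurableSet A') (hA0 : 0 < μ A') {p : X → Prop}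
    (hp : ∀ᵐ x ∂(μ[|A']), p x) : ∀ᵐ x ∂μ, x ∈ A' → p x := by
  have h1 : ∀ᵐ x ∂(μ.restrict A'), p x := by
    unfold ProbabilityTheory.cond at hp
    rwa [Measure.ae_ennreal_smul_measure_eq] at hp
    simp
  exact (ae_restrict_iff' hA).1 h1

theorem cond_ac {B' : Set Y} : (ν[|B']) ≪ ν := ProbabilityTheory.cond_absolutelyContinuous

theorem ae_image {A' : Set X} (hA : MeasurableSet A') (hA0 : 0 < μ A') {B' : Set Y}
    {φ : X → Y} (hφ : MeasurePreserving φ (μ[|A']) (ν[|B'])) {p : Y → Prop}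
    (hp : ∀ᵐ y ∂ν, p y) : ∀ᵐ x ∂μ, x ∈ A' → p (φ x) :=
  ae_of_cond hA hA0 (hφ.quasiMeasurePreserving.ae (cond_ac hp))

/-- measure of the part of `A'` mapped into `E` -/
theorem measure_image_le {A' : Set X} (hA : MeasurableSet A') (hA0 : 0 < μ A') {B' : Set Y}
    (hB : MeasurableSet B') (hB0 : 0 < ν B')
    {φ : X → Y} (hφ : MeasurePreserving φ (μ[|A']) (ν[|B'])) {E : Set Y} (hE : MeasurableSet E) :
    μ {x | x ∈ A' ∧ φ x ∈ E} ≤ μ A' / ν B' * ν E := by
  have h1 : (μ[|A']) (φ ⁻¹' E) = (ν[|B']) E := hφ.measure_preimage hE.nullMeasurableSet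
  rw [ProbabilityTheory.cond_apply hA, ProbabilityTheory.cond_apply hB] at h1
  have h2 : μ {x | x ∈ A' ∧ φ x ∈ E} = μ A' * ((μ A')⁻¹ * μ (A' ∩ φ ⁻¹' E)) := by
    rw [← mul_assoc, ENNReal.mul_inv_cancel hA0.ne' (measure_ne_top _ _), one_mul]
    rfl
  rw [h2, h1, ← mul_assoc, ← div_eq_mul_inv]
  gcongr
  exact inter_subset_right

theorem measurable_Gw {P : Y → ℕ} (hP : Measurable P) {T : Y → Y} (hT : Measurable T)
    {B' : Set Y} (hB : MeasurableSet B') {φ : X → Y} (hφ : Measurable φ) {A' : Set X}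
    (hA : MeasurableSet A') (u : List ℕ) : MeasurableSet (Gw P T B' φ A' ⁻¹' {u}) := by
  classical
  have hname : ∀ n, MeasurableSet {y | name P T y n = u} := by
    intro n
    by_cases hn : u.length = n
    · have : {y | name P T y n = u} = ⋂ i : Fin n, {y | P (T^[i] y) = u.get (i.cast hn.symm)} := by
        ext y
        simp only [mem_iInter]
        constructor
        · intro hy i
          have hy' : name P T y n = u := hy
          show P (T^[i] y) = u.get (i.cast hn.symm)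
          simp only [← hy', name, List.get_eq_getElem, Fin.val_cast, List.getElem_map,
            List.getElem_range]
        · intro hy
          show name P T y n = u
          apply List.ext_getElem
          · rw [name_length, hn]
          · intro i h1 h2
            rw [name_length] at h1
            have := hy ⟨i, h1⟩
            have h3 : P (T^[i] y) = u.get (Fin.cast hn.symm ⟨i, h1⟩) := this
            simpa [name] using h3
      rw [this]
      exact MeasurableSet.iInter fun i => (hP.comp (hT.iterate i)) (measurableSet_singleton _)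
    · have : {y | name P T y n = u} = ∅ := by
        ext y
        simp only [mem_empty_iff_false, iff_false]
        intro hy
        have hy' : name P T y n = u := hy
        exact hn (by rw [← hy', name_length])
      rw [this]; exact MeasurableSet.empty
  have hret := measurable_ret hT hB
  have h1 : MeasurableSet {y | name P T y (ret T B' y) = u} := by
    have : {y | name P T y (ret T B' y) = u} =
        ⋃ n : ℕ, (ret T B' ⁻¹' {n}) ∩ {y | name P T y n = u} := by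
      ext y
      simp only [mem_iUnion, mem_inter_iff, mem_preimage, mem_singleton_iff]
      constructor
      · intro hy; exact ⟨ret T B' y, rfl, hy⟩
      · rintro ⟨n, h1, h2⟩
        show name P T y (ret T B' y) = u
        rw [h1]; exact h2
    rw [this]
    exact MeasurableSet.iUnion fun n => (hret (measurableSet_singleton n)).inter (hname n)
  have : Gw P T B' φ A' ⁻¹' {u} =
      (A' ∩ φ ⁻¹' {y | name P T y (ret T B' y) = u}) ∪ (A'ᶜ ∩ {_x | ([] : List ℕ) = u}) := by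
    ext x
    simp only [mem_preimage, mem_singleton_iff, Gw, mem_union, mem_inter_iff, mem_compl_iff]
    by_cases hx : x ∈ A'
    · simp only [hx, if_true, true_and, not_true, false_and, or_false]; rfl
    · simp only [hx, if_false, false_and, not_false_eq_true, true_and, false_or]; rfl
  rw [this]
  exact (hA.inter (hφ h1)).union (hA.compl.inter (MeasurableSet.const _))

theorem lintegral_Gw {P : Y → ℕ} {T : Y → Y} (hT : MeasurePreserving T ν ν)
    {B' : Set Y} (hB : MeasurableSet B') (hB0 : 0 < ν B') {φ : X → Y} {A' : Set X}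
    (hA : MeasurableSet A') (hA0 : 0 < μ A') (hφ : MeasurePreserving φ (μ[|A']) (ν[|B'])) :
    ∫⁻ x, ((Gw P T B' φ A' x).length : ℝ≥0∞) ∂μ ≠ ∞ := by
  classical
  have hret := measurable_ret hT.measurable hB
  have h1 : ∫⁻ x, ((Gw P T B' φ A' x).length : ℝ≥0∞) ∂μ =
      ∫⁻ x in A', (ret T B' (φ x) : ℝ≥0∞) ∂μ := by
    rw [← lintegral_indicator hA]
    refine lintegral_congr fun x => ?_
    by_cases hx : x ∈ A'
    · simp [Gw, hx, name_length]
    · simp [Gw, hx]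
  have h2 : ∫⁻ x in A', (ret T B' (φ x) : ℝ≥0∞) ∂μ =
      μ A' * ∫⁻ x, (ret T B' (φ x) : ℝ≥0∞) ∂(μ[|A']) := by
    unfold ProbabilityTheory.cond
    rw [lintegral_smul_measure, smul_eq_mul, ← mul_assoc,
      ENNReal.mul_inv_cancel hA0.ne' (measure_ne_top _ _), one_mul]
  have hcast : Measurable (fun y => (ret T B' y : ℝ≥0∞)) :=
    (measurable_from_top (f := fun n : ℕ => (n : ℝ≥0∞))).comp hret
  have h3 : ∫⁻ x, (ret T B' (φ x) : ℝ≥0∞) ∂(μ[|A']) = ∫⁻ y, (ret T B' y : ℝ≥0∞) ∂(ν[|B']) :=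
    hφ.lintegral_comp hcast
  have h4 : ∫⁻ y, (ret T B' y : ℝ≥0∞) ∂(ν[|B']) ≤ (ν B')⁻¹ * 1 := by
    unfold ProbabilityTheory.cond
    rw [lintegral_smul_measure, smul_eq_mul]
    gcongr
    exact lintegral_ret hT hB
  rw [h1, h2, h3]
  refine (lt_of_le_of_lt (mul_le_mul_right h4 _) ?_).ne
  exact ENNReal.mul_lt_top (measure_lt_top _ _)
    (ENNReal.mul_lt_top (ENNReal.inv_lt_top.2 hB0) ENNReal.one_lt_top)

theorem ae_iterate {S : X → X} (hS : MeasurePreserving S μ μ) {p : X → Prop}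
    (hp : ∀ᵐ x ∂μ, p x) : ∀ᵐ x ∂μ, ∀ i, p (S^[i] x) :=
  ae_all_iff.2 fun i => (hS.iterate i).quasiMeasurePreserving.ae hp

/-- Markov bound for the accumulated coding error. -/
theorem markov_dd {S : X → X} (hS : MeasurePreserving S μ μ) {F : X → ℕ} (hF : Measurable F)
    {δ : ℝ≥0∞} (hδ : ∫⁻ x, (F x : ℝ≥0∞) ∂μ ≤ δ) (n n' : ℕ) :
    (n : ℝ≥0∞) * μ {x | ¬ (16 * ∑ i ∈ Finset.range n', F (S^[i] x) ≤ n)} ≤ 16 * n' * δ := by
  have hFc : Measurable (fun x => (F x : ℝ≥0∞)) :=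
    (measurable_from_top (f := fun n : ℕ => (n : ℝ≥0∞))).comp hF
  have hmi : ∀ i, Measurable (fun x => (F (S^[i] x) : ℝ≥0∞)) :=
    fun i => hFc.comp (hS.iterate i).measurable
  have h1 : ∫⁻ x, ((16 * ∑ i ∈ Finset.range n', F (S^[i] x) : ℕ) : ℝ≥0∞) ∂μ ≤ 16 * n' * δ := by
    push_cast
    rw [lintegral_const_mul _ (Finset.measurable_sum _ fun i _ => hmi i),
      lintegral_finsetSum _ (fun i _ => hmi i), mul_assoc]
    gcongr
    calc ∑ i ∈ Finset.range n', ∫⁻ x, (F (S^[i] x) : ℝ≥0∞) ∂μ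
        = ∑ i ∈ Finset.range n', ∫⁻ x, (F x : ℝ≥0∞) ∂μ :=
          Finset.sum_congr rfl fun i _ => (hS.iterate i).lintegral_comp hFc
      _ ≤ ∑ i ∈ Finset.range n', δ := Finset.sum_le_sum fun i _ => hδ
      _ = n' * δ := by rw [Finset.sum_const, Finset.card_range, nsmul_eq_mul]
  refine le_trans ?_ h1
  have hm : Measurable (fun x => ((16 * ∑ i ∈ Finset.range n', F (S^[i] x) : ℕ) : ℝ≥0∞)) := by
    refine (measurable_from_top (f := fun n : ℕ => (n : ℝ≥0∞))).comp ?_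
    exact (Finset.measurable_sum _ fun i _ => hF.comp (hS.iterate i).measurable).const_mul 16
  refine le_trans ?_ (mul_meas_ge_le_lintegral hm (n : ℝ≥0∞))
  refine mul_le_mul_right (measure_mono ?_) _
  intro x hx
  have hx' : n < 16 * ∑ i ∈ Finset.range n', F (S^[i] x) := not_le.1 hx
  show (n : ℝ≥0∞) ≤ ((16 * ∑ i ∈ Finset.range n', F (S^[i] x) : ℕ) : ℝ≥0∞)
  exact_mod_cast hx'.le

theorem measurable_dd {G : X → List ℕ} (hG : ∀ u, MeasurableSet (G ⁻¹' {u}))
    (G' : ℕ × ℕ → List ℕ) {w : X → ℕ × ℕ} (hw : Measurable w) :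
    Measurable (fun x => dd (G x) (G' (w x))) := by
  refine measurable_to_countable' fun r => ?_
  have : (fun x => dd (G x) (G' (w x))) ⁻¹' {r} =
      ⋃ p : {p : List ℕ × (ℕ × ℕ) // dd p.1 (G' p.2) = r}, (G ⁻¹' {p.1.1}) ∩ (w ⁻¹' {p.1.2}) := by
    ext x
    simp only [mem_preimage, mem_singleton_iff, mem_iUnion, mem_inter_iff]
    constructor
    · intro hx
      exact ⟨⟨(G x, w x), hx⟩, rfl, rfl⟩
    · rintro ⟨⟨⟨u, ω⟩, hp⟩, h1, h2⟩
      simp only at h1 h2 hp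
      rw [h1, h2, hp]
  rw [this]
  exact MeasurableSet.iUnion fun p => (hG _).inter (hw (measurableSet_singleton _))

theorem tendsto_two_pow_inv : Tendsto (fun k : ℕ => ((2 : ℝ≥0∞) ^ k)⁻¹) atTop (𝓝 0) := by
  have := ENNReal.tendsto_pow_atTop_nhds_zero_of_lt_one (r := (2 : ℝ≥0∞)⁻¹) (by simp)
  simpa [ENNReal.inv_pow] using this

theorem two_pow_le_a (k : ℕ) : 2 ^ k ≤ a k := by
  unfold a; exact Nat.pow_le_pow_right (by norm_num) (by omega)

theorem N_growth (k : ℕ) : N k * 2 ^ k ≤ N (k + 1) := by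
  unfold N
  rw [← pow_add]
  exact Nat.pow_le_pow_right (by norm_num) (by nlinarith)

theorem not_kak {t s : ℕ → ℕ}
    {S : X → X} {w : ℕ → X → ℕ × ℕ} (hS : Tower t μ S w)
    {T : Y → Y} {v : ℕ → Y → ℕ × ℕ} (hT : Tower s ν T v)
    (hinf : ∃ᶠ k in atTop, t k = 0 ∧ s k = M k)
    {A' : Set X} (hA : MeasurableSet A') (hA0 : 0 < μ A') {B' : Set Y} (hB : MeasurableSet B')
    (hB0 : 0 < ν B') {φ : X → Y} (hφ : MeasurePreserving φ (μ[|A']) (ν[|B']))
    (hφS : ∀ᵐ x ∂(μ[|A']), φ (induced S A' x) = induced T B' (φ x)) : False := by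
  classical
  set α := μ A' with hα
  set β := ν B' with hβ
  have hαt : α ≠ ∞ := measure_ne_top _ _
  have hβt : β ≠ ∞ := measure_ne_top _ _
  set P : Y → ℕ := fun y => (v 0 y).1 with hP
  have hPm : Measurable P := measurable_fst.comp (hT.meas 0)
  set G := Gw P T B' φ A' with hGdef
  have hG : ∀ u, MeasurableSet (G ⁻¹' {u}) :=
    measurable_Gw hPm hT.mp.measurable hB hφ.measurable hA
  have hint : ∫⁻ x, ((G x).length : ℝ≥0∞) ∂μ ≠ ∞ := lintegral_Gw hT.mp hB hB0 hA hA0 hφ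
  -- the constant c
  obtain ⟨c, hc⟩ := ENNReal.exists_nat_gt (r := 8 / α) (ENNReal.div_ne_top (by simp) hA0.ne')
  have hc0 : (c : ℝ≥0∞) ≠ 0 := by
    intro h; rw [h] at hc; exact absurd hc (by simp)
  have hct : (c : ℝ≥0∞) ≠ ∞ := by simp
  have hcN : 0 < c := Nat.pos_of_ne_zero fun h => hc0 (by rw [h]; simp)
  have hcinv : (c : ℝ≥0∞)⁻¹ ≤ α / 8 := by
    have h1 : (c : ℝ≥0∞)⁻¹ ≤ (8 / α)⁻¹ := ENNReal.inv_le_inv.2 hc.le
    rwa [ENNReal.inv_div (Or.inl hαt) (Or.inl hA0.ne')] at h1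
  set δ : ℝ≥0∞ := α / 8 / (16 * c) with hδdef
  have h16c : (16 * (c : ℝ≥0∞)) ≠ 0 := mul_ne_zero (by norm_num) hc0
  have h16ct : (16 * (c : ℝ≥0∞)) ≠ ∞ := ENNReal.mul_ne_top (by simp) hct
  have hα8 : 0 < α / 8 := ENNReal.div_pos hA0.ne' (by simp)
  have hβ8 : 0 < β / 8 := ENNReal.div_pos hB0.ne' (by simp)
  have hδ : 0 < δ := ENNReal.div_pos hα8.ne' h16ct
  obtain ⟨m, K, G', hK, hG'⟩ := approx_word hS hG hint hδ
  -- the stage k
  have hε : 0 < min (α / 8 / c) (β / 8) := lt_min (ENNReal.div_pos hα8.ne' hct) hβ8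
  have ev1 : ∀ᶠ k : ℕ in atTop, ((2 : ℝ≥0∞) ^ k)⁻¹ ≤ min (α / 8 / c) (β / 8) :=
    (tendsto_order.1 tendsto_two_pow_inv).2 _ hε |>.mono fun k hk => hk.le
  have ev2 : ∀ᶠ k : ℕ in atTop, m ≤ k := eventually_ge_atTop m
  have ev3 : ∀ᶠ k : ℕ in atTop, 8 * K < 2 ^ k :=
    (eventually_gt_atTop (8 * K)).mono fun k hk => hk.trans Nat.lt_two_pow_self
  obtain ⟨k, ⟨htk, hsk⟩, hk1, hk2, hk3⟩ := (hinf.and_eventually (ev1.and (ev2.and ev3))).exists
  obtain ⟨d, rfl⟩ := Nat.exists_eq_add_of_le hk2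
  set k := m + d with hkdef
  obtain ⟨hk1a, hk1b⟩ := le_min_iff.1 hk1
  set n : ℕ := h k * a k ^ N (k + 1) with hn
  have hapos : 0 < a k ^ N (k + 1) := pow_pos (a_pos k) _
  have hnpos : 0 < n := Nat.mul_pos (h_pos k) hapos
  set n' : ℕ := (c * a k ^ N (k + 1)) * h k with hn'
  have hnn' : n' = c * n := by rw [hn', hn]; ring
  have hn0 : (n : ℝ≥0∞) ≠ 0 := by exact_mod_cast hnpos.ne'
  have hnt : (n : ℝ≥0∞) ≠ ∞ := by simp
  have haN : a k ≤ a k ^ N (k + 1) := Nat.le_self_pow (N_pos _).ne' _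
  have hKn : 4 * (2 * h k * K) < n := by
    have h1 : 8 * K < a k ^ N (k + 1) := hk3.trans_le ((two_pow_le_a k).trans haN)
    calc 4 * (2 * h k * K) = h k * (8 * K) := by ring
      _ < h k * a k ^ N (k + 1) := Nat.mul_lt_mul_of_pos_left h1 (h_pos k)
  -- bad sets
  have b1 : μ {x | x ∈ A' ∧ visits S A' x n' < n} ≤ α / 8 := by
    have h1 := few_visits hS.mp hA n n'
    have h2 : μ {x | x ∈ A' ∧ visits S A' x n' < n} ≤ (c : ℝ≥0∞)⁻¹ := by
      rw [hnn'] at h1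
      push_cast at h1
      rw [ENNReal.le_inv_iff_mul_le]
      have h3 : (n : ℝ≥0∞) * (μ {x | x ∈ A' ∧ visits S A' x (c * n) < n} * c) ≤ n * 1 := by
        rw [mul_one]
        calc _ = (c : ℝ≥0∞) * n * μ {x | x ∈ A' ∧ visits S A' x (c * n) < n} := by ring
          _ ≤ n := h1
      rw [hnn']
      exact (ENNReal.mul_le_mul_iff_right hn0 hnt).1 h3
    exact h2.trans hcinv
  have b2 : μ {x | ¬ (16 * ∑ i ∈ Finset.range n', dd (G (S^[i] x)) (G' (w m (S^[i] x))) ≤ n)} ≤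
      α / 8 := by
    have h1 := markov_dd hS.mp (measurable_dd hG G' (hS.meas m)) hG' n n'
    rw [hnn'] at h1
    push_cast at h1
    have h2 : 16 * ((c : ℝ≥0∞) * n) * δ = n * (α / 8) := by
      rw [hδdef]
      calc 16 * ((c : ℝ≥0∞) * n) * (α / 8 / (16 * c))
          = n * ((16 * c) * (α / 8 / (16 * c))) := by ring
        _ = n * (α / 8) := by rw [ENNReal.mul_div_cancel h16c h16ct]
    rw [h2] at h1
    rw [hnn']
    exact (ENNReal.mul_le_mul_iff_right hn0 hnt).1 h1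
  obtain ⟨E, hE, hE2⟩ := run_zero hS htk (c * a k ^ N (k + 1))
  have b3 : μ E ≤ α / 8 := by
    refine hE.trans ?_
    have h1 : ((c * a k ^ N (k + 1) : ℕ) : ℝ≥0∞) / ((a k ^ (N (k + 1) + 2) : ℕ) : ℝ≥0∞) ≤
        c * ((2 : ℝ≥0∞) ^ k)⁻¹ := by
      have h2 : ((a k ^ (N (k + 1) + 2) : ℕ) : ℝ≥0∞) =
          ((a k ^ N (k + 1) : ℕ) : ℝ≥0∞) * ((a k ^ 2 : ℕ) : ℝ≥0∞) := by
        rw [← Nat.cast_mul, pow_add]
      have h3 : ((a k ^ N (k + 1) : ℕ) : ℝ≥0∞) ≠ 0 := by exact_mod_cast hapos.ne'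
      rw [h2, Nat.cast_mul, mul_comm (c : ℝ≥0∞), ENNReal.mul_div_mul_left _ _ h3 (by simp),
        div_eq_mul_inv]
      gcongr
      calc (2 : ℝ≥0∞) ^ k = ((2 ^ k : ℕ) : ℝ≥0∞) := by push_cast; rfl
        _ ≤ ((a k ^ 2 : ℕ) : ℝ≥0∞) := by
          exact_mod_cast (two_pow_le_a k).trans (Nat.le_self_pow (by norm_num) _)
    refine h1.trans ?_
    calc (c : ℝ≥0∞) * ((2 : ℝ≥0∞) ^ k)⁻¹ ≤ c * (α / 8 / c) := by gcongr
      _ = α / 8 := ENNReal.mul_div_cancel hc0 hct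
  have hratio : ∀ x : ℝ≥0∞, x ≤ β / 8 → α / β * x ≤ α / 8 := by
    intro x hx
    calc α / β * x ≤ α / β * (β / 8) := by gcongr
      _ = α / 8 := by
        rw [div_eq_mul_inv, div_eq_mul_inv, div_eq_mul_inv]
        calc α * β⁻¹ * (β * 8⁻¹) = α * 8⁻¹ * (β * β⁻¹) := by ring
          _ = α * 8⁻¹ := by rw [ENNReal.mul_inv_cancel hB0.ne' hβt, mul_one]
  have b4 : μ {x | x ∈ A' ∧ φ x ∈ {y | ¬ ((v (k + 1) y).2 + n ≤ h (k + 1))}} ≤ α / 8 := by
    have hmeas : MeasurableSet {y | ¬ ((v (k + 1) y).2 + n ≤ h (k + 1))} :=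
      (hT.meas (k + 1)) (Set.to_countable {ω : ℕ × ℕ | ¬ (ω.2 + n ≤ h (k + 1))}).measurableSet
    refine (measure_image_le hA hA0 hB hB0 hφ hmeas).trans (hratio _ ?_)
    refine (tower_lvl2 hT (k + 1) n).trans (le_trans ?_ hk1b)
    rw [ENNReal.div_le_iff (by exact_mod_cast (h_pos _).ne') (by simp)]
    rw [← ENNReal.div_eq_inv_mul, ENNReal.le_div_iff_mul_le (Or.inl (by simp)) (Or.inl (by simp))]
    have h1 : n * 2 ^ k ≤ h (k + 1) := by
      have h2 : h (k + 1) = L k * h k := rfl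
      rw [h2, hn]
      have h3 : a k ^ N (k + 1) * 2 ^ k ≤ L k := by
        unfold L A Q
        calc a k ^ N (k + 1) * 2 ^ k ≤ a k ^ N (k + 1) * a k := by
              gcongr; exact two_pow_le_a k
          _ = a k ^ (N (k + 1) + 1) := (pow_succ _ _).symm
          _ ≤ a k ^ (2 * N (k + 1) + 2) := Nat.pow_le_pow_right (a_pos k) (by omega)
          _ ≤ M k * a k ^ (2 * N (k + 1) + 2) := Nat.le_mul_of_pos_left _ (M_pos k)
          _ ≤ N k * (M k * a k ^ (2 * N (k + 1) + 2)) := Nat.le_mul_of_pos_left _ (N_pos k)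
      calc h k * a k ^ N (k + 1) * 2 ^ k = h k * (a k ^ N (k + 1) * 2 ^ k) := by ring
        _ ≤ h k * L k := Nat.mul_le_mul_left _ h3
        _ = L k * h k := mul_comm _ _
    exact_mod_cast h1
  -- almost everywhere properties
  have q1 : ∀ᵐ x ∂μ, x ∈ A' → φ (induced S A' x) = induced T B' (φ x) := ae_of_cond hA hA0 hφS
  have q2 : ∀ᵐ x ∂μ, x ∈ A' → ∃ n, 0 < n ∧ S^[n] x ∈ A' := ae_returns hS.mp hA
  have q3 : ∀ᵐ x ∂μ, x ∈ A' → 0 < ret T B' (φ x) := by
    have h1 : ∀ᵐ y ∂(ν[|B']), y ∈ B' := ProbabilityTheory.ae_cond_mem hB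
    have h2 : ∀ᵐ y ∂(ν[|B']), y ∈ B' → ∃ n, 0 < n ∧ T^[n] y ∈ B' := cond_ac (ae_returns hT.mp hB)
    have h3 : ∀ᵐ y ∂(ν[|B']), 0 < ret T B' y := by
      filter_upwards [h1, h2] with y hy1 hy2
      exact (Nat.sInf_mem (s := {n | 0 < n ∧ T^[n] y ∈ B'}) (hy2 hy1)).1
    exact ae_of_cond hA hA0 (hφ.quasiMeasurePreserving.ae h3)
  have q4 := ae_image hA hA0 hφ (name_eq hT)
  have q1' := ae_iterate hS.mp q1
  have q2' := ae_iterate hS.mp q2
  have q3' := ae_iterate hS.mp q3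
  set NB : Set X := {x | ¬ ((∀ i, S^[i] x ∈ A' → φ (induced S A' (S^[i] x)) =
      induced T B' (φ (S^[i] x))) ∧ (∀ i, S^[i] x ∈ A' → ∃ n, 0 < n ∧ S^[n] (S^[i] x) ∈ A') ∧
      (∀ i, S^[i] x ∈ A' → 0 < ret T B' (φ (S^[i] x))) ∧
      (x ∈ A' → ∀ k n, (v k (φ x)).2 + n ≤ h k → name P T (φ x) n =
        ((Wd s k (v k (φ x)).1).drop (v k (φ x)).2).take n))} with hNB
  have b5 : μ NB = 0 := by
    have : ∀ᵐ x ∂μ, (∀ i, S^[i] x ∈ A' → φ (induced S A' (S^[i] x)) =
      induced T B' (φ (S^[i] x))) ∧ (∀ i, S^[i] x ∈ A' → ∃ n, 0 < n ∧ S^[n] (S^[i] x) ∈ A') ∧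
      (∀ i, S^[i] x ∈ A' → 0 < ret T B' (φ (S^[i] x))) ∧
      (x ∈ A' → ∀ k n, (v k (φ x)).2 + n ≤ h k → name P T (φ x) n =
        ((Wd s k (v k (φ x)).1).drop (v k (φ x)).2).take n) := by
      filter_upwards [q1', q2', q3', q4] with x h1 h2 h3 h4
      exact ⟨h1, h2, h3, h4⟩
    exact this
  -- the good set
  set Gd : Set X := {x | x ∈ A' ∧ x ∉ {x | x ∈ A' ∧ visits S A' x n' < n} ∧
    x ∉ {x | ¬ (16 * ∑ i ∈ Finset.range n', dd (G (S^[i] x)) (G' (w m (S^[i] x))) ≤ n)} ∧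
    x ∉ E ∧ x ∉ {x | x ∈ A' ∧ φ x ∈ {y | ¬ ((v (k + 1) y).2 + n ≤ h (k + 1))}} ∧ x ∉ NB} with hGd
  have hcover : A' ⊆ Gd ∪ ({x | x ∈ A' ∧ visits S A' x n' < n} ∪
      ({x | ¬ (16 * ∑ i ∈ Finset.range n', dd (G (S^[i] x)) (G' (w m (S^[i] x))) ≤ n)} ∪
      (E ∪ ({x | x ∈ A' ∧ φ x ∈ {y | ¬ ((v (k + 1) y).2 + n ≤ h (k + 1))}} ∪ NB)))) := by
    intro x hx
    by_contra hcon
    simp only [mem_union, not_or] at hcon
    exact hcon.1 ⟨hx, hcon.2.1, hcon.2.2.1, hcon.2.2.2.1, hcon.2.2.2.2.1, hcon.2.2.2.2.2⟩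
  have hsame : ∀ z ∈ Gd, ∀ z' ∈ Gd, (w k z).1 = (w k z').1 →
      (v (k + 1) (φ z)).1 = (v (k + 1) (φ z')).1 := by
    have conc : ∀ z ∈ Gd, ∃ r, n ≤ r ∧
        (List.range n').flatMap (fun s => Gw P T B' φ A' (S^[s] z)) = name P T (φ z) r := by
      intro z hz
      obtain ⟨hz1, hz2, hz3, hz4, hz5, hz6⟩ := hz
      have hz6' := not_not.1 hz6
      obtain ⟨r, hr1, hr2⟩ := concat_names P hz1 hz6'.1 hz6'.2.1 hz6'.2.2.1 n'
      refine ⟨r, le_trans ?_ hr1, hr2⟩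
      by_contra hlt
      exact hz2 ⟨hz1, not_le.1 hlt⟩
    have hproj : ∀ z ∈ Gd, ∀ i < n', w m (S^[i] z) =
        projd t m d ((w k z).1, ((w k z).2 + i) % h k) := by
      intro z hz i hi
      obtain ⟨hz1, hz2, hz3, hz4, hz5, hz6⟩ := hz
      rw [← projd_w hS m d (S^[i] z)]
      congr 1
      exact hE2 z hz4 i hi
    intro z hz z' hz' hij
    obtain ⟨hz1, hz2, hz3, hz4, hz5, hz6⟩ := id hz
    obtain ⟨hz1', hz2', hz3', hz4', hz5', hz6'⟩ := id hz'
    have e5 : (v (k + 1) (φ z)).2 + n ≤ h (k + 1) := by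
      by_contra hcon; exact hz5 ⟨hz1, hcon⟩
    have e5' : (v (k + 1) (φ z')).2 + n ≤ h (k + 1) := by
      by_contra hcon; exact hz5' ⟨hz1', hcon⟩
    exact same_word (m := m) (d := d) (K := K) (n := n) (n' := n') (t := t) (s := s) (w := w)
      (v := v) (P := P) (G' := G') hK rfl hsk hKn (conc z hz) (conc z' hz') (not_not.1 hz3)
      (not_not.1 hz3') (hproj z hz) (hproj z' hz') (hS.lt2 _ _) (hS.lt2 _ _) hij (hT.lt1 _ _)
      (hT.lt1 _ _) ((not_not.1 hz6).2.2.2 hz1 _ _ e5) ((not_not.1 hz6').2.2.2 hz1' _ _ e5')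
  -- the set of words
  set fj : ℕ → ℕ := fun i => if hi : ∃ z ∈ Gd, (w k z).1 = i then
    (v (k + 1) (φ hi.choose)).1 else 0 with hfj
  set J : Finset ℕ := (Finset.range (N k)).image fj with hJ
  have hJc : J.card ≤ N k := Finset.card_image_le.trans (by rw [Finset.card_range])
  have hGsub : Gd ⊆ {x | x ∈ A' ∧ φ x ∈ {y | (v (k + 1) y).1 ∈ J}} := by
    intro z hz
    refine ⟨hz.1, ?_⟩
    show (v (k + 1) (φ z)).1 ∈ J
    have hi : ∃ z' ∈ Gd, (w k z').1 = (w k z).1 := ⟨z, hz, rfl⟩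
    have h1 : fj (w k z).1 = (v (k + 1) (φ z)).1 := by
      simp only [hfj, dif_pos hi]
      exact hsame _ hi.choose_spec.1 _ hz hi.choose_spec.2
    rw [← h1]
    exact Finset.mem_image_of_mem _ (Finset.mem_range.2 (hS.lt1 k z))
  have b6 : μ Gd ≤ α / 8 := by
    refine (measure_mono hGsub).trans ?_
    have hmeas : MeasurableSet {y | (v (k + 1) y).1 ∈ J} :=
      (hT.meas (k + 1)) (Set.to_countable {ω : ℕ × ℕ | ω.1 ∈ J}).measurableSet
    refine (measure_image_le hA hA0 hB hB0 hφ hmeas).trans (hratio _ ?_)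
    refine (tower_lvl1 hT (k + 1) J).trans (le_trans ?_ hk1b)
    rw [ENNReal.div_le_iff (by exact_mod_cast (N_pos _).ne') (by simp)]
    rw [← ENNReal.div_eq_inv_mul, ENNReal.le_div_iff_mul_le (Or.inl (by simp)) (Or.inl (by simp))]
    have h1 : J.card * 2 ^ k ≤ N (k + 1) := (Nat.mul_le_mul_right _ hJc).trans (N_growth k)
    exact_mod_cast h1
  have htot : α ≤ α / 8 + (α / 8 + (α / 8 + (α / 8 + (α / 8 + 0)))) := by
    refine (measure_mono hcover).trans ?_
    refine (measure_union_le _ _).trans (add_le_add b6 ?_)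
    refine (measure_union_le _ _).trans (add_le_add b1 ?_)
    refine (measure_union_le _ _).trans (add_le_add b2 ?_)
    refine (measure_union_le _ _).trans (add_le_add b3 ?_)
    exact (measure_union_le _ _).trans (add_le_add b4 b5.le)
  have hsum : α / 8 + (α / 8 + (α / 8 + (α / 8 + (α / 8 + 0)))) = 5 * (α / 8) := by ring
  rw [hsum] at htot
  have hlt : 5 * (α / 8) < α := by
    have h8 : α = 8 * (α / 8) := (ENNReal.mul_div_cancel (by norm_num) (by simp)).symm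
    calc 5 * (α / 8) < 8 * (α / 8) := by
          exact (ENNReal.mul_lt_mul_iff_left hα8.ne' (ENNReal.div_lt_top hαt (by norm_num)).ne).2
            (by norm_num)
      _ = α := h8.symm
  exact absurd htot (not_le.2 hlt)

end Main

end KakC
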