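import Pool.Agent.Helper16.Kak.D5
import Pool.Agent.Helper16.Kak.D8
import Pool.Agent.Helper16.Kak.D9
import Pool.Agent.Helper56.Kak.D6
import Pool.Agent.Helper56.Kak.D10

open MeasureTheory Set Topology Filter
open scoped symmDiff ENNReal ProbabilityTheory

namespace KakC

section
variable {Z : Type*} [MeasurableSpace Z] [StandardBorelSpace Z] [MulAction (Equiv.Perm ℕ) Z]

/-- Module D11 (assembly). -/
theorem generic_ergodic (hZ : Measurable (fun p : Equiv.Perm ℕ × Z => p.1 • p.2))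
    {f : (ℕ → ℝ) → Z} (hf : Measurable f)
    (hE : ∀ (x : ℕ → ℝ) (g : Gl), ∃ σ : Equiv.Perm ℕ, σ • f x = f (x + g)) :
    ∃ C ∈ residual (ℕ → ℝ), ∀ x ∈ C, ∀ y ∈ C, ∃ σ : Equiv.Perm ℕ, σ • f x = f y := by
  obtain ⟨𝒜, h𝒜, hsep⟩ : ∃ 𝒜 : ℕ → Set Z, (∀ n, MeasurableSet (𝒜 n)) ∧
      ∀ z z' : Z, (∀ n, z ∈ 𝒜 n ↔ z' ∈ 𝒜 n) → z = z' := by
    obtain ⟨e, he, hinj⟩ := MeasurableSpace.measurable_injection_nat_bool_of_countablySeparated Z
    refine ⟨fun n => {z | e z n = true}, fun n => ?_, fun z z' hzz => hinj ?_⟩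
    · exact (measurable_pi_apply n).comp he (measurableSet_singleton true)
    · funext n
      have : e z n = true ↔ e z' n = true := hzz n
      exact Bool.eq_iff_iff.2 this
  obtain ⟨C, hC, hC1, hC2, hC3⟩ := good_set (f := f)
    (fun n => homog n (RS_baire hZ hf n) (RS_local hZ hf hE n))
    (fun p : ℕ × List ℕ => {x | Str 𝒜 (f x) p.1 p.2})
    (fun p => Str_baire hZ h𝒜 hf p.1 p.2)
  exact ⟨C, hC, fun x hx y hy => back_and_forth hZ hE h𝒜 hsep hC1
    (fun x hx m s => hC2 x hx (m, s)) hC3 hx hy⟩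

end

end KakC
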