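import Pool.Agent.Helper8.Kak.Stmt

/-!
# Kakutani equivalence is not classifiable by countable structures: the scheme
(problem MP_013a6c_an)

The concrete cutting-and-stacking scheme used in the proof.
-/

open MeasureTheory Set Topology Filter
open scoped symmDiff ENNReal ProbabilityTheory

namespace KakC

/-- number of `k`-words -/
def N (k : ℕ) : ℕ := 2 ^ ((k + 3) ^ 2)
/-- base of the run lengths at stage `k` -/
def a (k : ℕ) : ℕ := 2 ^ (k + 9)
/-- number of steps of the parameter at stage `k` -/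
def M (k : ℕ) : ℕ := 2 ^ k
/-- `Q k * N k` is a common period of all the patterns of stage `k` -/
def Q (k : ℕ) : ℕ := a k ^ (2 * N (k + 1) + 2)
/-- number of occurrences of each `k`-word in each `(k+1)`-word -/
def A (k : ℕ) : ℕ := M k * Q k
/-- number of `k`-words in a `(k+1)`-word -/
def L (k : ℕ) : ℕ := N k * A k
/-- length of the `k`-words -/
def h : ℕ → ℕ
  | 0 => 1
  | k + 1 => L k * h k

/-- exponent of the run length in the `(k+1)`-word `j` in the first (`b = true`) or second part -/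
def ex (k : ℕ) (j : ℕ) (b : Prop) [Decidable b] : ℕ := if b then j else j + N (k + 1) + 2

/-- The pattern of the `(k+1)`-word number `j < N (k+1)` with parameter `t ≤ M k`: the index of its
`q`-th `k`-word, `q < L k`. -/
def pat (k t j q : ℕ) : ℕ := (q / a k ^ ex k j (q < t * (N k * Q k))) % N k

/-- The number of earlier occurrences of the `k`-word `pat k t j q`. -/
def rnk (k t j q : ℕ) : ℕ :=
  (q / (N k * a k ^ ex k j (q < t * (N k * Q k)))) * a k ^ ex k j (q < t * (N k * Q k))
    + q % a k ^ ex k j (q < t * (N k * Q k))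

/-- The position of the `r`-th occurrence (`r < A k`) of the `k`-word `i` in the `(k+1)`-word `j`. -/
def pos (k t j i r : ℕ) : ℕ :=
  (r / a k ^ ex k j (r < t * Q k)) * (N k * a k ^ ex k j (r < t * Q k))
    + i * a k ^ ex k j (r < t * Q k) + r % a k ^ ex k j (r < t * Q k)

/-- projection from level `k+1` to level `k` -/
def proj (k t : ℕ) (ω : ℕ × ℕ) : ℕ × ℕ := (pat k t ω.1 (ω.2 / h k), ω.2 % h k)

/-- the words: `Wd t k i` is the name of the `k`-word `i < N k` (a list of length `h k` over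
`{0, …, N 0 - 1}`) in the system with parameter `t`. -/
def Wd (t : ℕ → ℕ) : ℕ → ℕ → List ℕ
  | 0, i => [i]
  | k + 1, j => (List.range (L k)).flatMap (fun q => Wd t k (pat k (t k) j q))

/-- A measure-preserving system with a tower structure given by the parameter `t`:
`w k x = (i, l)` means that `x` is on level `l < h k` of the tower over the `k`-word `i < N k`. -/
structure Tower {X : Type*} [MeasurableSpace X] (t : ℕ → ℕ) (μ : Measure X) (T : X → X)
    (w : ℕ → X → ℕ × ℕ) : Prop where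
  mp : MeasurePreserving T μ μ
  meas : ∀ k, Measurable (w k)
  lt1 : ∀ k x, (w k x).1 < N k
  lt2 : ∀ k x, (w k x).2 < h k
  proj : ∀ k x, proj k (t k) (w (k + 1) x) = w k x
  law : ∀ k i l, i < N k → l < h k → μ (w k ⁻¹' {(i, l)}) = ((N k * h k : ℕ) : ℝ≥0∞)⁻¹
  step : ∀ k, ∀ᵐ x ∂μ, (w k x).2 + 1 < h k → w k (T x) = ((w k x).1, (w k x).2 + 1)
  gen : ∀ S : Set X, MeasurableSet S → ∀ ε : ℝ≥0∞, 0 < ε → ∃ (k : ℕ) (B : Set (ℕ × ℕ)),
    μ (S ∆ (w k ⁻¹' B)) < ε

/-- number of choices for the second coordinate -/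
def B : ℕ → ℕ
  | 0 => 1
  | k + 1 => A k

theorem N_pos (k : ℕ) : 0 < N k := by unfold N; positivity
theorem a_pos (k : ℕ) : 0 < a k := by unfold a; positivity
theorem M_pos (k : ℕ) : 0 < M k := by unfold M; positivity
theorem Q_pos (k : ℕ) : 0 < Q k := by unfold Q; exact pow_pos (a_pos k) _
theorem A_pos (k : ℕ) : 0 < A k := Nat.mul_pos (M_pos k) (Q_pos k)
theorem L_pos (k : ℕ) : 0 < L k := Nat.mul_pos (N_pos k) (A_pos k)
theorem h_pos : ∀ k, 0 < h k
  | 0 => by simp [h]
  | k + 1 => by rw [h]; exact Nat.mul_pos (L_pos k) (h_pos k)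
theorem B_pos : ∀ k, 0 < B k
  | 0 => by simp [B]
  | k + 1 => by rw [B]; exact A_pos k

instance (k : ℕ) : NeZero (N k) := ⟨(N_pos k).ne'⟩
instance (k : ℕ) : NeZero (B k) := ⟨(B_pos k).ne'⟩

/-- The model space: sequences `ξ` with `ξ k ∈ Fin (N k) × Fin (B k)`. -/
abbrev PP : Type := ∀ k : ℕ, Fin (N k) × Fin (B k)

/-- The uniform product measure. -/
noncomputable def lam : Measure PP :=
  Measure.infinitePi (fun k => ProbabilityTheory.uniformOn (Set.univ : Set (Fin (N k) × Fin (B k))))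

/-- The tower position of `ξ` at level `k`, for the parameter `t`. -/
def w (t : ℕ → ℕ) : ℕ → PP → ℕ × ℕ
  | 0, ξ => ((ξ 0).1, 0)
  | k + 1, ξ => ((ξ (k + 1)).1,
      pos k (t k) (ξ (k + 1)).1 (ξ k).1 (ξ (k + 1)).2 * h k + (w t k ξ).2)

/-- The point `ξ'` with `w t k ξ' = ω` and the same coordinates as `ξ` above `k`. -/
def repl (t : ℕ → ℕ) : ℕ → ℕ × ℕ → PP → PP
  | 0, ω, ξ => Function.update ξ 0 (Fin.ofNat (N 0) ω.1, Fin.ofNat (B 0) 0)
  | k + 1, ω, ξ => Function.update (repl t k (proj k (t k) ω) ξ) (k + 1)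
      (Fin.ofNat (N (k + 1)) ω.1, Fin.ofNat (B (k + 1)) (rnk k (t k) ω.1 (ω.2 / h k)))

open Classical in
/-- The transformation with parameter `t`. -/
noncomputable def TT (t : ℕ → ℕ) (ξ : PP) : PP :=
  if hk : ∃ k, (w t k ξ).2 + 1 < h k then
    repl t (Nat.find hk) ((w t (Nat.find hk) ξ).1, (w t (Nat.find hk) ξ).2 + 1) ξ
  else ξ

end KakC
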