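import Pool.Agent.Helper8.Kak.Defs

/-! Definitions for the ergodic-theory part (problem MP_013a6c_an). -/

open MeasureTheory Set Topology Filter
open scoped symmDiff ENNReal ProbabilityTheory

namespace KakC

/-- the set of all positions of level `k` -/
def Om (k : ℕ) : Set (ℕ × ℕ) := {ω | ω.1 < N k ∧ ω.2 < h k}

open Classical in
/-- The inverse of `TT t`. -/
noncomputable def TTinv (t : ℕ → ℕ) (ξ : PP) : PP :=
  if hk : ∃ k, 0 < (w t k ξ).2 then
    repl t (Nat.find hk) ((w t (Nat.find hk) ξ).1, (w t (Nat.find hk) ξ).2 - 1) ξ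
  else ξ

/-- `u` and `v` have a common subsequence that misses at most `e` letters in total. -/
def Near (e : ℕ) (u v : List ℕ) : Prop :=
  ∃ c : List ℕ, c.Sublist u ∧ c.Sublist v ∧ u.length + v.length ≤ 2 * c.length + e

/-- trivial edit distance -/
def dd (u v : List ℕ) : ℕ := if u = v then 0 else u.length + v.length

/-- The name of length `n` of the point `y` for the map `T` and the labelling `P`. -/
def name {Y : Type*} (P : Y → ℕ) (T : Y → Y) (y : Y) (n : ℕ) : List ℕ :=
  (List.range n).map (fun s => P (T^[s] y))

open Classical in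
/-- The word read by the image of `z` until its return to `B'`. -/
noncomputable def Gw {X Y : Type*} (P : Y → ℕ) (T : Y → Y) (B' : Set Y) (φ : X → Y) (A' : Set X)
    (z : X) : List ℕ :=
  if z ∈ A' then name P T (φ z) (ret T B' (φ z)) else []

open Classical in
/-- number of visits to `A'` in `[0, n)` -/
noncomputable def visits {X : Type*} (S : X → X) (A' : Set X) (z : X) (n : ℕ) : ℕ :=
  ((Finset.range n).filter (fun s => S^[s] z ∈ A')).card

/-- projection from level `k + d` to level `k` -/
def projd (t : ℕ → ℕ) (k : ℕ) : ℕ → ℕ × ℕ → ℕ × ℕ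
  | 0, ω => ω
  | d + 1, ω => projd t k d (proj (k + d) (t (k + d)) ω)

end KakC
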