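import Pool.Agent.Helper8.Kak.Defs

/-! Definitions for the descriptive-set-theory part (problem MP_013a6c_an). -/

open MeasureTheory Set Topology Filter
open scoped symmDiff ENNReal ProbabilityTheory

namespace KakC

/-- The Banach space `ℓ¹`. -/
abbrev Gl : Type := lp (fun _ : ℕ => ℝ) 1

/-- The pointwise stabilizer of `{0, …, n-1}`. -/
def Stab (n : ℕ) : Subgroup (Equiv.Perm ℕ) where
  carrier := {σ | ∀ i < n, σ i = i}
  mul_mem' := by
    intro σ τ hσ hτ i hi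
    have h1 : σ i = i := hσ i hi
    have h2 : τ i = i := hτ i hi
    simp [h1, h2]
  one_mem' := by intro i _; rfl
  inv_mem' := by
    intro σ hσ i hi
    have h1 : σ i = i := hσ i hi
    rw [Equiv.Perm.inv_eq_iff_eq]
    exact h1.symm

theorem mem_Stab {n : ℕ} {σ : Equiv.Perm ℕ} : σ ∈ Stab n ↔ ∀ i < n, σ i = i := Iff.rfl

/-- `f y ∈ Stab n • f x`. -/
def RS {Z : Type*} [MulAction (Equiv.Perm ℕ) Z] (f : (ℕ → ℝ) → Z) (n : ℕ) (x y : ℕ → ℝ) : Prop :=
  ∃ w ∈ Stab n, w • f x = f y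

/-- The countable structure attached to `z ∈ Z` (Vaught transforms). -/
def Str {Z : Type*} [MulAction (Equiv.Perm ℕ) Z] (𝒜 : ℕ → Set Z) (z : Z) (n : ℕ) (s : List ℕ) :
    Prop :=
  ∀ᶠ g in residual (Equiv.Perm ℕ), (∀ (i : ℕ) (hi : i < s.length), g i = s[i]) → g⁻¹ • z ∈ 𝒜 n

end KakC
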