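import Pool.Agent.Helper8.Kak.Defs

/-! Definitions for the separation of names (module C7, problem MP_013a6c_an). -/

namespace KakC

/-- The separation property of the `k`-words with constants `c`, `ε`. -/
def LB (t : ℕ → ℕ) (k : ℕ) (c ε : ℝ) : Prop :=
  ∀ i i', i < N k → i' < N k → i ≠ i' → ∀ u v x : List ℕ, u <:+: Wd t k i → v <:+: Wd t k i' →
    x.Sublist u → x.Sublist v → (x.length : ℝ) ≤ c * (u.length + v.length) + ε * h k

/-- the concatenation of the `k`-words with the indices `f q`, `p ≤ q < p + s` -/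
def cat (t : ℕ → ℕ) (k : ℕ) (f : ℕ → ℕ) (p s : ℕ) : List ℕ :=
  (List.range' p s).flatMap (fun q => Wd t k (f q))

end KakC
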