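import Pool.Agent.Helper8.Kak.Tau
import Pool.Agent.Helper8.Kak.C8
import Pool.Agent.Helper8.Kak.D11
import Pool.Agent.Helper37.Kak.B5
import Pool.Agent.Helper41.Kak.B4
import Pool.Agent.Helper57.Kak.B7
import Pool.Agent.Helper58.Kak.B8b
import Pool.Agent.Helper88.Kak.B6

/-! Final assembly (problem MP_013a6c_an). -/

open MeasureTheory Set Topology Filter
open scoped symmDiff ENNReal ProbabilityTheory

set_option linter.unusedSectionVars false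

namespace KakC

section

variable {X : Type*} [MeasurableSpace X] {μ : Measure X} [IsProbabilityMeasure μ]
  {φ : PP → X} {ψ : X → PP}

/-- the transformation with parameter `t`, transported to `X` -/
noncomputable def fX (φ : PP → X) (ψ : X → PP) (t : ℕ → ℕ) (x : X) : X := φ (TT t (ψ x))

theorem fX_mp (hφ : MeasurePreserving φ lam μ) (hψ : MeasurePreserving ψ μ lam) (t : ℕ → ℕ) :
    MeasurePreserving (fX φ ψ t) μ μ :=
  hφ.comp ((TT_tower t).mp.comp hψ)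

theorem fX_aut (hφ : MeasurePreserving φ lam μ) (hψ : MeasurePreserving ψ μ lam)
    (h1 : ∀ᵐ ξ ∂lam, ψ (φ ξ) = ξ) (h2 : ∀ᵐ x ∂μ, φ (ψ x) = x) (t : ℕ → ℕ) :
    IsAut μ (fX φ ψ t) := by
  obtain ⟨hT, g, hg, hg1, hg2⟩ := TT_aut t
  refine ⟨fX_mp hφ hψ t, fun x => φ (g (ψ x)), hφ.comp (hg.comp hψ), ?_, ?_⟩
  · have e1 : ∀ᵐ x ∂μ, ψ (φ (TT t (ψ x))) = TT t (ψ x) :=
      (hT.comp hψ).quasiMeasurePreserving.ae h1
    have e2 : ∀ᵐ x ∂μ, g (TT t (ψ x)) = ψ x := hψ.quasiMeasurePreserving.ae hg1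
    filter_upwards [e1, e2, h2] with x a1 a2 a3
    simp only [fX, a1, a2, a3]
  · have e1 : ∀ᵐ x ∂μ, ψ (φ (g (ψ x))) = g (ψ x) :=
      (hg.comp hψ).quasiMeasurePreserving.ae h1
    have e2 : ∀ᵐ x ∂μ, TT t (g (ψ x)) = ψ x := hψ.quasiMeasurePreserving.ae hg2
    filter_upwards [e1, e2, h2] with x a1 a2 a3
    simp only [fX, a1, a2, a3]

/-- Any representative of the transported class has the tower structure. -/
theorem fX_tower (hφ : MeasurePreserving φ lam μ) (hψ : MeasurePreserving ψ μ lam)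
    (h1 : ∀ᵐ ξ ∂lam, ψ (φ ξ) = ξ) (h2 : ∀ᵐ x ∂μ, φ (ψ x) = x) (t : ℕ → ℕ) {f : X → X}
    (hf : MeasurePreserving f μ μ) (hft : f =ᵐ[μ] fX φ ψ t) :
    Tower t μ f (fun k x => w t k (ψ x)) := by
  have hT := TT_tower t
  refine ⟨hf, fun k => (hT.meas k).comp hψ.measurable, fun k x => hT.lt1 k _,
    fun k x => hT.lt2 k _, fun k x => hT.proj k _, ?_, ?_, ?_⟩
  · intro k i l hi hl
    have hm : MeasurableSet (w t k ⁻¹' {(i, l)}) := hT.meas k (measurableSet_singleton _)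
    rw [← hT.law k i l hi hl, ← hψ.measure_preimage hm.nullMeasurableSet]
    rfl
  · intro k
    have e1 : ∀ᵐ x ∂μ, ψ (φ (TT t (ψ x))) = TT t (ψ x) :=
      (hT.mp.comp hψ).quasiMeasurePreserving.ae h1
    have e2 := hψ.quasiMeasurePreserving.ae (hT.step k)
    filter_upwards [e1, e2, hft] with x a1 a2 a3 hl
    rw [a3]
    simp only [fX, a1]
    exact a2 hl
  · intro S hS ε hε
    obtain ⟨k, B', hB⟩ := hT.gen (φ ⁻¹' S) (hφ.measurable hS) ε hε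
    refine ⟨k, B', ?_⟩
    have hmeas : MeasurableSet ((φ ⁻¹' S) ∆ (w t k ⁻¹' B')) :=
      (hφ.measurable hS).symmDiff (hT.meas k (Set.to_countable _).measurableSet)
    rw [← hψ.measure_preimage hmeas.nullMeasurableSet] at hB
    have : ψ ⁻¹' ((φ ⁻¹' S) ∆ (w t k ⁻¹' B')) =ᵐ[μ] (S ∆ ((fun x => w t k (ψ x)) ⁻¹' B') : Set X) := by
      have e : (ψ ⁻¹' (φ ⁻¹' S) : Set X) =ᵐ[μ] (S : Set X) := by
        filter_upwards [h2] with x hx
        have : (x ∈ ψ ⁻¹' (φ ⁻¹' S)) = (x ∈ S) := by simp only [mem_preimage, hx]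
        exact this
      exact e.symmDiff Filter.EventuallyEq.rfl
    rwa [measure_congr this] at hB

/-- the element of `𝓔` with parameter `t` -/
noncomputable def EX (hφ : MeasurePreserving φ lam μ) (hψ : MeasurePreserving ψ μ lam)
    (h1 : ∀ᵐ ξ ∂lam, ψ (φ ξ) = ξ) (h2 : ∀ᵐ x ∂μ, φ (ψ x) = x) (t : ℕ → ℕ) : Erg μ :=
  ⟨Aut.mk μ (fX φ ψ t) (fX_aut hφ hψ h1 h2 t), fX φ ψ t, ⟨fX_aut hφ hψ h1 h2 t, rfl⟩,
    (fX_tower hφ hψ h1 h2 t (fX_mp hφ hψ t) Filter.EventuallyEq.rfl).ergodic⟩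

theorem EX_cont (hφ : MeasurePreserving φ lam μ) (hψ : MeasurePreserving ψ μ lam)
    (h1 : ∀ᵐ ξ ∂lam, ψ (φ ξ) = ξ) (h2 : ∀ᵐ x ∂μ, φ (ψ x) = x) :
    Continuous (EX hφ hψ h1 h2) := by
  refine continuous_induced_rng.2 ?_
  have hcomp : (fun T : Erg μ => T.1) ∘ EX hφ hψ h1 h2 =
      fun t => Aut.mk μ (fX φ ψ t) (fX_aut hφ hψ h1 h2 t) := rfl
  rw [hcomp]
  refine continuous_iInf_rng.2 fun A' => continuous_iInf_rng.2 fun B' => continuous_induced_rng.2 ?_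
  have hA := A'.2
  have hB := B'.2
  have key : (sd μ A'.1 B'.1 ∘ fun t => Aut.mk μ (fX φ ψ t) (fX_aut hφ hψ h1 h2 t)) =
      fun t => lam ((TT t ⁻¹' (φ ⁻¹' A'.1)) ∆ (φ ⁻¹' B'.1)) := by
    funext t
    have hm : MeasurableSet ((TT t ⁻¹' (φ ⁻¹' A'.1)) ∆ (φ ⁻¹' B'.1)) :=
      ((TT_tower t).mp.measurable (hφ.measurable hA)).symmDiff (hφ.measurable hB)
    rw [← hψ.measure_preimage hm.nullMeasurableSet]
    show μ ((fX φ ψ t ⁻¹' A'.1) ∆ B'.1) = _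
    refine measure_congr ?_
    have e : (B'.1 : Set X) =ᵐ[μ] (ψ ⁻¹' (φ ⁻¹' B'.1) : Set X) := by
      filter_upwards [h2] with x hx
      have : (x ∈ B'.1) = (x ∈ ψ ⁻¹' (φ ⁻¹' B'.1)) := by simp only [mem_preimage, hx]
      exact this
    exact (Filter.EventuallyEq.rfl (f := (fX φ ψ t ⁻¹' A'.1 : Set X))).symmDiff e
  rw [key]
  exact TT_cont (hφ.measurable hA) (hφ.measurable hB)

theorem induced_univ (f : X → X) (x : X) : induced f univ x = f x := by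
  have : ret f univ x = 1 := by
    unfold ret
    have h0 : {n | 0 < n ∧ f^[n] x ∈ (univ : Set X)} = {n | 0 < n} := by ext n; simp
    rw [h0]
    apply le_antisymm
    · exact Nat.sInf_le (by simp)
    · exact Nat.one_le_iff_ne_zero.2 (Nat.pos_iff_ne_zero.1 (Nat.sInf_mem ⟨1, by simp⟩))
  unfold induced
  rw [this]; rfl

theorem EX_kak (hφ : MeasurePreserving φ lam μ) (hψ : MeasurePreserving ψ μ lam)
    (h1 : ∀ᵐ ξ ∂lam, ψ (φ ξ) = ξ) (h2 : ∀ᵐ x ∂μ, φ (ψ x) = x) {t s : ℕ → ℕ}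
    (ht : ∀ k, t k ≤ M k) (hs : ∀ k, s k ≤ M k)
    (hsum : Summable (fun k => |(t k : ℝ) - s k| / M k)) :
    Kak (EX hφ hψ h1 h2 t) (EX hφ hψ h1 h2 s) := by
  obtain ⟨α, β, hα, hβ, hβα, hαβ, hcomm⟩ := TT_iso ht hs hsum
  refine ⟨fX φ ψ t, fX φ ψ s, ⟨fX_aut hφ hψ h1 h2 t, rfl⟩, ⟨fX_aut hφ hψ h1 h2 s, rfl⟩,
    univ, univ, MeasurableSet.univ, MeasurableSet.univ, by simp, by simp, ?_⟩
  rw [ProbabilityTheory.cond_univ]
  refine ⟨fun x => φ (α (ψ x)), fun x => φ (β (ψ x)), hφ.comp (hα.comp hψ), hφ.comp (hβ.comp hψ),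
    ?_, ?_, ?_⟩
  · have e1 : ∀ᵐ x ∂μ, ψ (φ (α (ψ x))) = α (ψ x) := (hα.comp hψ).quasiMeasurePreserving.ae h1
    have e2 : ∀ᵐ x ∂μ, β (α (ψ x)) = ψ x := hψ.quasiMeasurePreserving.ae hβα
    filter_upwards [e1, e2, h2] with x a1 a2 a3
    simp only [a1, a2, a3]
  · have e1 : ∀ᵐ x ∂μ, ψ (φ (β (ψ x))) = β (ψ x) := (hβ.comp hψ).quasiMeasurePreserving.ae h1
    have e2 : ∀ᵐ x ∂μ, α (β (ψ x)) = ψ x := hψ.quasiMeasurePreserving.ae hαβ
    filter_upwards [e1, e2, h2] with x a1 a2 a3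
    simp only [a1, a2, a3]
  · have e1 : ∀ᵐ x ∂μ, ψ (φ (TT t (ψ x))) = TT t (ψ x) :=
      ((TT_tower t).mp.comp hψ).quasiMeasurePreserving.ae h1
    have e2 : ∀ᵐ x ∂μ, ψ (φ (α (ψ x))) = α (ψ x) := (hα.comp hψ).quasiMeasurePreserving.ae h1
    have e3 : ∀ᵐ x ∂μ, α (TT t (ψ x)) = TT s (α (ψ x)) := hψ.quasiMeasurePreserving.ae hcomm
    filter_upwards [e1, e2, e3] with x a1 a2 a3
    rw [induced_univ, induced_univ]
    simp only [fX, a1, a2, a3]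

theorem EX_not_kak (hφ : MeasurePreserving φ lam μ) (hψ : MeasurePreserving ψ μ lam)
    (h1 : ∀ᵐ ξ ∂lam, ψ (φ ξ) = ξ) (h2 : ∀ᵐ x ∂μ, φ (ψ x) = x) {t s : ℕ → ℕ}
    (hinf : ∃ᶠ k in atTop, t k = 0 ∧ s k = M k) :
    ¬ Kak (EX hφ hψ h1 h2 t) (EX hφ hψ h1 h2 s) := by
  rintro ⟨f, g, ⟨hf, hf'⟩, ⟨hg, hg'⟩, A', B', hA, hB, hA0, hB0, α, β, hα, -, -, -, hcomm⟩
  have hf2 : f =ᵐ[μ] fX φ ψ t := Quotient.exact hf'
  have hg2 : g =ᵐ[μ] fX φ ψ s := Quotient.exact hg'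
  exact not_kak (fX_tower hφ hψ h1 h2 t hf.1 hf2) (fX_tower hφ hψ h1 h2 s hg.1 hg2) hinf hA hA0
    hB hB0 hα hcomm

end

/-- infinitely often `1 < y k` is a comeager property -/
theorem residual_one : ∀ᶠ y : ℕ → ℝ in residual (ℕ → ℝ), ∃ᶠ k in atTop, 1 < y k := by
  have h : ∀ n : ℕ, {y : ℕ → ℝ | ∃ k ≥ n, 1 < y k} ∈ residual (ℕ → ℝ) := by
    intro n
    refine residual_of_dense_open ?_ ?_
    · have : {y : ℕ → ℝ | ∃ k ≥ n, 1 < y k} = ⋃ k ≥ n, {y : ℕ → ℝ | 1 < y k} := by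
        ext y; simp
      rw [this]
      exact isOpen_biUnion fun k _ => isOpen_lt continuous_const (continuous_apply k)
    · rw [dense_iff_inter_open]
      rintro U hU ⟨y, hy⟩
      obtain ⟨I, u, hu, hsub⟩ := isOpen_pi_iff.1 hU y hy
      obtain ⟨k, hk⟩ := Infinite.exists_notMem_finset (I ∪ Finset.range n)
      simp only [Finset.mem_union, Finset.mem_range, not_or, not_lt] at hk
      refine ⟨Function.update y k 2, hsub ?_, k, hk.2, by simp⟩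
      intro i hi
      have : i ≠ k := fun h => hk.1 (h ▸ hi)
      simpa [Function.update_of_ne this] using (hu i hi).2
  have h2 := eventually_countable_forall.2 h
  filter_upwards [h2] with y hy
  rw [frequently_atTop]
  intro n
  obtain ⟨k, hk, hk2⟩ := hy n
  exact ⟨k, hk, hk2⟩

theorem residual_two {y : ℕ → ℝ} (hy : ∃ᶠ k in atTop, 1 < y k) :
    ∀ᶠ x : ℕ → ℝ in residual (ℕ → ℝ), ∃ᶠ k in atTop, x k < 0 ∧ 1 < y k := by
  have h : ∀ n : ℕ, {x : ℕ → ℝ | ∃ k ≥ n, x k < 0 ∧ 1 < y k} ∈ residual (ℕ → ℝ) := by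
    intro n
    refine residual_of_dense_open ?_ ?_
    · have : {x : ℕ → ℝ | ∃ k ≥ n, x k < 0 ∧ 1 < y k} =
          ⋃ k ≥ n, {x : ℕ → ℝ | x k < 0} ∩ {x : ℕ → ℝ | 1 < y k} := by
        ext x
        simp only [mem_ofPred_eq, mem_iUnion, mem_inter_iff, exists_prop]
      rw [this]
      exact isOpen_biUnion fun k _ =>
        (isOpen_lt (continuous_apply k) continuous_const).inter isOpen_const
    · rw [dense_iff_inter_open]
      rintro U hU ⟨x, hx⟩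
      obtain ⟨I, u, hu, hsub⟩ := isOpen_pi_iff.1 hU x hx
      obtain ⟨m, hm⟩ : ∃ m, ∀ i ∈ I, i < m := ⟨I.sup id + 1, fun i hi =>
        Nat.lt_succ_of_le (Finset.le_sup (f := id) hi)⟩
      obtain ⟨k, hk, hk2⟩ := frequently_atTop.1 hy (max m n)
      refine ⟨Function.update x k (-1), hsub ?_, k, (le_max_right _ _).trans hk, by simp, hk2⟩
      intro i hi
      have h3 : i ≠ k := ((hm i hi).trans_le ((le_max_left _ _).trans hk)).ne
      simpa [Function.update_of_ne h3] using (hu i hi).2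
  have h2 := eventually_countable_forall.2 h
  filter_upwards [h2] with x hx
  rw [frequently_atTop]
  intro n
  obtain ⟨k, hk, hk2⟩ := hx n
  exact ⟨k, hk, hk2⟩

/-- **Kakutani equivalence is not classifiable by countable structures.** -/
theorem main {X : Type*} [MeasurableSpace X] [StandardBorelSpace X] (μ : Measure X)
    [IsProbabilityMeasure μ] [NullSingletonClass μ]
    {Z : Type*} [MeasurableSpace Z] [StandardBorelSpace Z] [MulAction (Equiv.Perm ℕ) Z]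
    (hZ : Measurable (fun p : Equiv.Perm ℕ × Z => p.1 • p.2)) :
    ¬ ∃ F : Erg μ → Z, Measurable F ∧ ∀ S T, Kak S T ↔ ∃ σ : Equiv.Perm ℕ, σ • F S = F T := by
  rintro ⟨F, hF, hFK⟩
  obtain ⟨φ, ψ, hφ, hψ, h1, h2⟩ := exists_model μ
  set E := EX hφ hψ h1 h2 with hEdef
  have hm : Measurable (fun x : ℕ → ℝ => F (E (tau x))) :=
    hF.comp ((EX_cont hφ hψ h1 h2).measurable.comp measurable_tau)
  obtain ⟨C, hC, hCC⟩ := generic_ergodic hZ hm (fun x g =>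
    (hFK _ _).1 (EX_kak hφ hψ h1 h2 (tau_le x) (tau_le _) (tau_summable x g)))
  obtain ⟨y, hyC, hy⟩ : ∃ y, y ∈ C ∧ ∃ᶠ k in atTop, 1 < y k :=
    (dense_of_mem_residual (Filter.inter_mem hC residual_one)).nonempty
  obtain ⟨x, hxC, hx⟩ : ∃ x, x ∈ C ∧ ∃ᶠ k in atTop, x k < 0 ∧ 1 < y k :=
    (dense_of_mem_residual (Filter.inter_mem hC (residual_two hy))).nonempty
  refine EX_not_kak hφ hψ h1 h2 (t := tau x) (s := tau y) ?_ ((hFK _ _).2 (hCC x hxC y hyC))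
  exact hx.mono fun k hk => ⟨tau_zero hk.1, tau_one hk.2⟩

end KakC
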