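import Mathlib

/-!
# Kakutani equivalence: definitions used in the statement (problem MP_013a6c_an)

`Aut(X, μ)` with the weak topology, its ergodic elements, Kakutani equivalence, and the topology
of `S_∞ = Equiv.Perm ℕ`.
-/

open MeasureTheory Set Topology Filter
open scoped symmDiff ENNReal ProbabilityTheory

namespace KakC

section Statement

variable {X : Type*} [MeasurableSpace X]

/-- `f` is an automorphism of `(X, μ)` modulo null sets: it preserves `μ` and it has a
measure-preserving inverse almost everywhere. -/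
def IsAut (μ : Measure X) (f : X → X) : Prop :=
  MeasurePreserving f μ μ ∧ ∃ g : X → X, MeasurePreserving g μ μ ∧
    (∀ᵐ x ∂μ, g (f x) = x) ∧ (∀ᵐ x ∂μ, f (g x) = x)

/-- Equality almost everywhere of automorphisms. -/
def autSetoid (μ : Measure X) : Setoid {f : X → X // IsAut μ f} where
  r f g := f.1 =ᵐ[μ] g.1
  iseqv :=
    { refl := fun _ => Filter.EventuallyEq.rfl
      symm := fun h => h.symm
      trans := fun h₁ h₂ => h₁.trans h₂ }

/-- The group `Aut(X, μ)` of measure-preserving automorphisms modulo null sets (as a set). -/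
def Aut (μ : Measure X) : Type _ := Quotient (autSetoid μ)

/-- The class of an automorphism in `Aut(X, μ)`. -/
def Aut.mk (μ : Measure X) (f : X → X) (hf : IsAut μ f) : Aut μ :=
  Quotient.mk (autSetoid μ) ⟨f, hf⟩

/-- `f` is a representative of the class `T ∈ Aut(X, μ)`. -/
def Rep {μ : Measure X} (T : Aut μ) (f : X → X) : Prop :=
  ∃ hf : IsAut μ f, Aut.mk μ f hf = T

/-- The function `T ↦ μ (T⁻¹ A ∆ B)` on `Aut(X, μ)`. -/
def sd (μ : Measure X) (A B : Set X) : Aut μ → ℝ≥0∞ :=
  Quotient.lift (fun f : {f : X → X // IsAut μ f} => μ ((f.1 ⁻¹' A) ∆ B)) (by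
    intro f g h
    have h' : f.1 =ᵐ[μ] g.1 := h
    refine measure_congr ?_
    have h2 : (f.1 ⁻¹' A : Set X) =ᵐ[μ] (g.1 ⁻¹' A : Set X) := by
      filter_upwards [h'] with x hx
      have : (x ∈ f.1 ⁻¹' A) = (x ∈ g.1 ⁻¹' A) := by simp only [mem_preimage, hx]
      exact this
    exact h2.symmDiff Filter.EventuallyEq.rfl)

/-- The weak topology of `Aut(X, μ)`: the coarsest topology that makes all the functions
`T ↦ μ (T⁻¹ A ∆ B) = μ (A ∆ T B)`, with `A`, `B` measurable, continuous. -/
instance weakTopology (μ : Measure X) : TopologicalSpace (Aut μ) :=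
  ⨅ (A : {A : Set X // MeasurableSet A}) (B : {B : Set X // MeasurableSet B}),
    TopologicalSpace.induced (sd μ A.1 B.1) inferInstance

/-- The Borel σ-algebra of `Aut(X, μ)`. -/
instance autMeasurableSpace (μ : Measure X) : MeasurableSpace (Aut μ) := borel _

instance autBorelSpace (μ : Measure X) : BorelSpace (Aut μ) := ⟨rfl⟩

/-- The space `𝓔` of ergodic elements of `Aut(X, μ)`, with the induced topology and its Borel
σ-algebra. -/
def Erg (μ : Measure X) : Type _ := {T : Aut μ // ∃ f, Rep T f ∧ Ergodic f μ}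

instance ergTopology (μ : Measure X) : TopologicalSpace (Erg μ) :=
  TopologicalSpace.induced (fun T : Erg μ => T.1) (weakTopology μ)

instance ergMeasurableSpace (μ : Measure X) : MeasurableSpace (Erg μ) := borel _

instance ergBorelSpace (μ : Measure X) : BorelSpace (Erg μ) := ⟨rfl⟩

/-- The return time of `x` to `A` under `f`. -/
noncomputable def ret (f : X → X) (A : Set X) (x : X) : ℕ := sInf {n | 0 < n ∧ f^[n] x ∈ A}

/-- The first-return map `f_A` (used only on `A`). -/
noncomputable def induced (f : X → X) (A : Set X) (x : X) : X := f^[ret f A x] x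

/-- The induced transformations `f_A` on `(A, μ(·|A))` and `g_B` on `(B, μ(·|B))` are
isomorphic, for some measurable sets `A`, `B` of positive measure. -/
def KakRaw (μ : Measure X) (f g : X → X) : Prop :=
  ∃ A B : Set X, MeasurableSet A ∧ MeasurableSet B ∧ 0 < μ A ∧ 0 < μ B ∧
    ∃ φ ψ : X → X, MeasurePreserving φ (μ[|A]) (μ[|B]) ∧ MeasurePreserving ψ (μ[|B]) (μ[|A]) ∧
      (∀ᵐ x ∂(μ[|A]), ψ (φ x) = x) ∧ (∀ᵐ y ∂(μ[|B]), φ (ψ y) = y) ∧
      (∀ᵐ x ∂(μ[|A]), φ (induced f A x) = induced g B (φ x))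

/-- Kakutani equivalence `S ∼_K T` on `𝓔`. -/
def Kak {μ : Measure X} (S T : Erg μ) : Prop :=
  ∃ f g : X → X, Rep S.1 f ∧ Rep T.1 g ∧ KakRaw μ f g

/-- The topology of pointwise convergence on `S_∞ = Equiv.Perm ℕ`. -/
instance permTopology : TopologicalSpace (Equiv.Perm ℕ) :=
  TopologicalSpace.induced (fun σ : Equiv.Perm ℕ => (σ : ℕ → ℕ)) inferInstance

/-- The Borel σ-algebra of `S_∞`. -/
instance permMeasurableSpace : MeasurableSpace (Equiv.Perm ℕ) := borel _

instance permBorelSpace : BorelSpace (Equiv.Perm ℕ) := ⟨rfl⟩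

end Statement

end KakC
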