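import Pool.Agent.Helper8.Kak.DefsD
import Pool.Agent.Helper8.Kak.DefsC

/-! The parameter as a function of a real sequence (problem MP_013a6c_an). -/

open MeasureTheory Set Topology Filter
open scoped symmDiff ENNReal ProbabilityTheory

namespace KakC

/-- `tau x k = ⌊M k * clamp (x k)⌋`. -/
noncomputable def tau (x : ℕ → ℝ) (k : ℕ) : ℕ := ⌊(M k : ℝ) * max 0 (min 1 (x k))⌋₊

theorem tau_le (x : ℕ → ℝ) (k : ℕ) : tau x k ≤ M k := by
  unfold tau
  have h1 : max 0 (min 1 (x k)) ≤ (1 : ℝ) := max_le zero_le_one (min_le_left _ _)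
  have h2 : (M k : ℝ) * max 0 (min 1 (x k)) ≤ M k := by
    have := mul_le_mul_of_nonneg_left h1 (Nat.cast_nonneg (M k))
    simpa using this
  exact_mod_cast (Nat.floor_le (by positivity)).trans h2

theorem tau_zero {x : ℕ → ℝ} {k : ℕ} (hx : x k < 0) : tau x k = 0 := by
  unfold tau
  have : max 0 (min 1 (x k)) = 0 := max_eq_left ((min_le_right _ _).trans hx.le)
  rw [this]; simp

theorem tau_one {x : ℕ → ℝ} {k : ℕ} (hx : 1 < x k) : tau x k = M k := by
  unfold tau
  have : max 0 (min 1 (x k)) = 1 := by rw [min_eq_left hx.le]; simp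
  rw [this]; simp

theorem measurable_tau : Measurable tau := by
  refine measurable_pi_lambda _ fun k => ?_
  unfold tau
  refine Nat.measurable_floor.comp ?_
  exact measurable_const.mul (measurable_const.max (measurable_const.min (measurable_pi_apply k)))

theorem clamp_lip (x y : ℝ) : |max 0 (min 1 x) - max 0 (min 1 y)| ≤ |x - y| := by
  have key : ∀ a b : ℝ, a ≤ b → 0 ≤ max 0 (min 1 b) - max 0 (min 1 a) ∧
      max 0 (min 1 b) - max 0 (min 1 a) ≤ b - a := by
    intro a b hab
    simp only [max_def, min_def]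
    split_ifs <;> constructor <;> linarith
  rcases le_total x y with hxy | hxy
  · obtain ⟨h1, h2⟩ := key x y hxy
    rw [abs_sub_comm, abs_of_nonneg h1, abs_sub_comm, abs_of_nonneg (by linarith)]
    exact h2
  · obtain ⟨h1, h2⟩ := key y x hxy
    rw [abs_of_nonneg h1, abs_of_nonneg (by linarith)]
    exact h2

theorem tau_sub_le (x y : ℕ → ℝ) (k : ℕ) :
    |(tau x k : ℝ) - tau y k| / M k ≤ |x k - y k| + 1 / M k := by
  have hM : (0 : ℝ) < M k := by exact_mod_cast M_pos k
  have h1 : |max 0 (min 1 (x k)) - max 0 (min 1 (y k))| ≤ |x k - y k| := clamp_lip _ _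
  have h2 : |(tau x k : ℝ) - tau y k| ≤ M k * |x k - y k| + 1 := by
    unfold tau
    set u := (M k : ℝ) * max 0 (min 1 (x k))
    set v := (M k : ℝ) * max 0 (min 1 (y k))
    have huv : |u - v| ≤ M k * |x k - y k| := by
      have : u - v = M k * (max 0 (min 1 (x k)) - max 0 (min 1 (y k))) := by
        simp only [u, v]; ring
      rw [this, abs_mul, abs_of_pos hM]
      exact mul_le_mul_of_nonneg_left h1 hM.le
    have hu0 : 0 ≤ u := by positivity
    have hv0 : 0 ≤ v := by positivity
    have a1 := Nat.floor_le hu0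
    have a2 := Nat.lt_floor_add_one u
    have a3 := Nat.floor_le hv0
    have a4 := Nat.lt_floor_add_one v
    rw [abs_le] at huv ⊢
    constructor <;> linarith [huv.1, huv.2]
  rw [div_le_iff₀ hM]
  calc _ ≤ M k * |x k - y k| + 1 := h2
    _ = (|x k - y k| + 1 / M k) * M k := by field_simp

theorem tau_summable (x : ℕ → ℝ) (g : Gl) :
    Summable (fun k => |(tau x k : ℝ) - tau (x + g) k| / M k) := by
  have h1 : Summable (fun k => ‖(g : ℕ → ℝ) k‖) := by
    have := (lp.memℓp g).summable (by simp)
    simpa using this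
  have h2 : Summable (fun k => 1 / (M k : ℝ)) := by
    have : (fun k => 1 / (M k : ℝ)) = fun k => (1 / 2 : ℝ) ^ k := by
      funext k
      unfold M
      push_cast
      rw [one_div_pow]
    rw [this]
    exact summable_geometric_two
  refine Summable.of_nonneg_of_le (fun k => by positivity) (fun k => ?_) (h1.add h2)
  refine (tau_sub_le x (x + g) k).trans ?_
  have : x k - (x + (g : ℕ → ℝ)) k = -((g : ℕ → ℝ) k) := by simp
  rw [this, abs_neg, Real.norm_eq_abs]

end KakC
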